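import Mathlib

set_option autoImplicit false

/-!
# Real-rooted connected set polynomials of disconnected graphs of every degree (MP_51a8c5_co)
-/

namespace Pool.Agent.Results.MP_51a8c5_co.HighDegree

open Polynomial

open Classical in
/-- The connected vertex sets (nonempty sets inducing a connected subgraph). -/
noncomputable def connSets {V : Type} [Fintype V] (G : SimpleGraph V) : Finset (Finset V) :=
  Finset.univ.filter (fun S => (G.induce (S : Set V)).Connected)

/-- The connected set polynomial `C(G; x)`. -/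
noncomputable def connPoly {V : Type} [Fintype V] (G : SimpleGraph V) : ℝ[X] :=
  ∑ S ∈ connSets G, X ^ S.card

/-- The node reliability `NRel(G; p)`. -/
noncomputable def nodeRel {V : Type} [Fintype V] (G : SimpleGraph V) : ℝ[X] :=
  ∑ S ∈ connSets G, X ^ S.card * (1 - X) ^ (Fintype.card V - S.card)

/-- All complex roots are real. -/
def RealRooted (P : ℝ[X]) : Prop := ∀ z : ℂ, aeval z P = 0 → z.im = 0

theorem connected_map {V W : Type} {G : SimpleGraph V} {K : SimpleGraph W} (f : G ↪g K)
    (A : Finset V) :
    (K.induce ((A.map f.toEmbedding : Finset W) : Set W)).Connected ↔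
      (G.induce (A : Set V)).Connected := by
  have e : G.induce (A : Set V) ≃g K.induce ((A.map f.toEmbedding : Finset W) : Set W) :=
    { toEquiv := Equiv.ofBijective
        (fun a : (A : Set V) => (⟨f a.1, by
          rw [Finset.mem_coe, Finset.mem_map]
          exact ⟨a.1, a.2, rfl⟩⟩ : ((A.map f.toEmbedding : Finset W) : Set W)))
        ⟨fun a b hab => Subtype.ext (f.injective (congrArg Subtype.val hab)), fun b => by
          obtain ⟨b, hb⟩ := b
          rw [Finset.mem_coe, Finset.mem_map] at hb
          obtain ⟨a, ha, rfl⟩ := hb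
          exact ⟨⟨a, ha⟩, rfl⟩⟩
      map_rel_iff' := by
        intro a b
        simp only [SimpleGraph.induce_adj]
        exact f.map_adj_iff }
  exact e.connected_iff.symm

theorem connPoly_sum {V W : Type} [Fintype V] [Fintype W] (G : SimpleGraph V)
    (H : SimpleGraph W) : connPoly (G.sum H) = connPoly G + connPoly H := by
  classical
  have hset : connSets (G.sum H) =
      (connSets G).map ⟨fun A => A.map Function.Embedding.inl, Finset.map_injective _⟩ ∪
      (connSets H).map ⟨fun B => B.map Function.Embedding.inr, Finset.map_injective _⟩ := by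
    ext S
    simp only [connSets, Finset.mem_union, Finset.mem_map, Finset.mem_filter, Finset.mem_univ,
      true_and, Function.Embedding.coeFn_mk]
    constructor
    · intro hS
      obtain ⟨⟨x, hx⟩⟩ := hS.nonempty
      rcases x with v | w
      · left
        have hall : ∀ y ∈ S, ∃ v', y = Sum.inl v' := by
          intro y hy
          rcases y with v' | w'
          · exact ⟨v', rfl⟩
          · exfalso
            have h1 := (hS.preconnected ⟨Sum.inl v, hx⟩ ⟨Sum.inr w', hy⟩).map
              (SimpleGraph.Embedding.induce (S : Set (V ⊕ W))).toHom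
            exact SimpleGraph.not_reachable_sum_inl_inr v w' h1
        have hS2 : (S.preimage Sum.inl Sum.inl_injective.injOn).map Function.Embedding.inl = S := by
          ext y
          rw [Finset.mem_map]
          constructor
          · rintro ⟨a, ha, rfl⟩
            exact Finset.mem_preimage.1 ha
          · intro hy
            obtain ⟨v', rfl⟩ := hall y hy
            exact ⟨v', Finset.mem_preimage.2 hy, rfl⟩
        refine ⟨S.preimage Sum.inl Sum.inl_injective.injOn, ?_, hS2⟩
        rw [← connected_map (SimpleGraph.Embedding.sumInl : G ↪g G.sum H)]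
        have : ((S.preimage Sum.inl Sum.inl_injective.injOn).map
          (SimpleGraph.Embedding.sumInl : G ↪g G.sum H).toEmbedding) = S := hS2
        rw [this]
        exact hS
      · right
        have hall : ∀ y ∈ S, ∃ w', y = Sum.inr w' := by
          intro y hy
          rcases y with v' | w'
          · exfalso
            have h1 := (hS.preconnected ⟨Sum.inl v', hy⟩ ⟨Sum.inr w, hx⟩).map
              (SimpleGraph.Embedding.induce (S : Set (V ⊕ W))).toHom
            exact SimpleGraph.not_reachable_sum_inl_inr v' w h1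
          · exact ⟨w', rfl⟩
        have hS2 : (S.preimage Sum.inr Sum.inr_injective.injOn).map Function.Embedding.inr = S := by
          ext y
          rw [Finset.mem_map]
          constructor
          · rintro ⟨a, ha, rfl⟩
            exact Finset.mem_preimage.1 ha
          · intro hy
            obtain ⟨v', rfl⟩ := hall y hy
            exact ⟨v', Finset.mem_preimage.2 hy, rfl⟩
        refine ⟨S.preimage Sum.inr Sum.inr_injective.injOn, ?_, hS2⟩
        rw [← connected_map (SimpleGraph.Embedding.sumInr : H ↪g G.sum H)]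
        have : ((S.preimage Sum.inr Sum.inr_injective.injOn).map
          (SimpleGraph.Embedding.sumInr : H ↪g G.sum H).toEmbedding) = S := hS2
        rw [this]
        exact hS
    · rintro (⟨A, hA, rfl⟩ | ⟨B, hB, rfl⟩)
      · exact (connected_map (SimpleGraph.Embedding.sumInl : G ↪g G.sum H) A).2 hA
      · exact (connected_map (SimpleGraph.Embedding.sumInr : H ↪g G.sum H) B).2 hB
  rw [connPoly, hset, Finset.sum_union]
  · rw [Finset.sum_map, Finset.sum_map]
    simp only [Function.Embedding.coeFn_mk, Finset.card_map]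
    rfl
  · rw [Finset.disjoint_left]
    intro S h1 h2
    simp only [connSets, Finset.mem_map, Finset.mem_filter, Finset.mem_univ,
      true_and, Function.Embedding.coeFn_mk] at h1 h2
    obtain ⟨A, hA, rfl⟩ := h1
    obtain ⟨B, hB, hAB⟩ := h2
    obtain ⟨⟨x, hx⟩⟩ := hA.nonempty
    have h3 : (Sum.inl x : V ⊕ W) ∈ A.map Function.Embedding.inl :=
      Finset.mem_map.2 ⟨x, hx, rfl⟩
    rw [← hAB, Finset.mem_map] at h3
    obtain ⟨y, _, hy⟩ := h3
    exact absurd hy (by simp)

theorem connPoly_top (n : ℕ) : connPoly (⊤ : SimpleGraph (Fin n)) = (1 + X) ^ n - 1 := by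
  classical
  have h1 : connSets (⊤ : SimpleGraph (Fin n)) = (Finset.univ : Finset (Finset (Fin n))).erase ∅ := by
    ext S
    simp only [connSets, Finset.mem_filter, Finset.mem_univ, true_and, Finset.mem_erase, and_true]
    constructor
    · intro h
      obtain ⟨⟨x, hx⟩⟩ := h.nonempty
      exact Finset.ne_empty_of_mem hx
    · intro h
      obtain ⟨x, hx⟩ := Finset.nonempty_iff_ne_empty.2 h
      have : Nonempty (S : Set (Fin n)) := ⟨⟨x, hx⟩⟩
      rw [SimpleGraph.induce_top]
      exact SimpleGraph.connected_top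
  rw [connPoly, h1]
  have h2 := Finset.add_sum_erase (Finset.univ : Finset (Finset (Fin n)))
    (fun S => (X : ℝ[X]) ^ S.card) (Finset.mem_univ ∅)
  have h3 : ∑ S : Finset (Fin n), (X : ℝ[X]) ^ S.card = (1 + X) ^ n := by
    have h4 := Finset.sum_pow_mul_eq_add_pow (X : ℝ[X]) 1 (Finset.univ : Finset (Fin n))
    simp only [one_pow, mul_one, Finset.card_univ, Fintype.card_fin, Finset.powerset_univ] at h4
    rw [h4, add_comm]
  rw [← h3, ← h2]
  simp

/-- `P` has degree `d`, positive leading coefficient and alternates in sign at `d + 1` points. -/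
def Alt (P : ℝ[X]) (d : ℕ) : Prop :=
  P.natDegree = d ∧ 0 < P.leadingCoeff ∧
    ∃ t : ℕ → ℝ, (∀ i < d, t (i + 1) < t i) ∧ ∀ i ≤ d, 0 < (-1) ^ i * P.eval (t i)

theorem Alt.realRooted {P : ℝ[X]} {d : ℕ} (h : Alt P d) : RealRooted P := by
  obtain ⟨hdeg, hlc, t, ht, hs⟩ := h
  have hP0 : P ≠ 0 := fun h0 => by
    rw [h0, leadingCoeff_zero] at hlc
    exact lt_irrefl _ hlc
  have hroot : ∀ i : ℕ, i < d → ∃ r, t (i + 1) < r ∧ r < t i ∧ P.eval r = 0 := by
    intro i hi
    have h1 := hs i hi.le
    have h2 := hs (i + 1) hi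
    rcases neg_one_pow_eq_or ℝ i with he | he
    · rw [he, one_mul] at h1
      rw [pow_succ, he] at h2
      have h3 : P.eval (t (i + 1)) < 0 := by linarith
      obtain ⟨r, hr, hr0⟩ := intermediate_value_Ioo (ht i hi).le
        (P.continuous.continuousOn) (show (0 : ℝ) ∈ Set.Ioo _ _ from ⟨h3, h1⟩)
      exact ⟨r, hr.1, hr.2, hr0⟩
    · rw [he] at h1
      rw [pow_succ, he] at h2
      have h3 : 0 < P.eval (t (i + 1)) := by linarith
      have h4 : P.eval (t i) < 0 := by linarith
      obtain ⟨r, hr, hr0⟩ := intermediate_value_Ioo' (ht i hi).le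
        (P.continuous.continuousOn) (show (0 : ℝ) ∈ Set.Ioo _ _ from ⟨h4, h3⟩)
      exact ⟨r, hr.1, hr.2, hr0⟩
  choose r hr1 hr2 hr0 using hroot
  have hmono : ∀ i j : ℕ, i < j → j ≤ d → t j < t i := by
    intro i j hij hj
    induction j with
    | zero => omega
    | succ j ih =>
      rcases Nat.lt_succ_iff_lt_or_eq.1 hij with h | h
      · exact (ht j (by omega)).trans (ih h (by omega))
      · subst h
        exact ht i (by omega)
  let f : Fin d → ℝ := fun i => r i.1 i.2
  have hf : Function.Injective f := by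
    intro i j hij
    by_contra hne
    have key : ∀ a b : Fin d, a.1 < b.1 → f b < f a := by
      intro a b hab
      have h1 := hr2 b.1 b.2
      have h2 := hr1 a.1 a.2
      rcases Nat.lt_or_ge (a.1 + 1) b.1 with h3 | h3
      · have h4 := hmono (a.1 + 1) b.1 h3 b.2.le
        change r b.1 b.2 < r a.1 a.2
        linarith
      · have h4 : b.1 = a.1 + 1 := by omega
        rw [← h4] at h2
        change r b.1 b.2 < r a.1 a.2
        linarith
    rcases Nat.lt_or_gt_of_ne (fun h => hne (Fin.ext h)) with h | h
    · have := key i j h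
      rw [hij] at this
      exact lt_irrefl _ this
    · have := key j i h
      rw [hij] at this
      exact lt_irrefl _ this
  have hsub : Finset.univ.image f ⊆ P.roots.toFinset := by
    intro x hx
    obtain ⟨i, _, rfl⟩ := Finset.mem_image.1 hx
    rw [Multiset.mem_toFinset, mem_roots hP0]
    exact hr0 i.1 i.2
  have hcard : d ≤ Multiset.card P.roots := by
    have h1 := Finset.card_le_card hsub
    rw [Finset.card_image_of_injective _ hf, Finset.card_univ, Fintype.card_fin] at h1
    exact h1.trans (Multiset.toFinset_card_le _)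
  have hcard2 : Multiset.card P.roots = P.natDegree :=
    le_antisymm (card_roots' P) (hdeg ▸ hcard)
  have hsplit : P.Splits := splits_iff_card_roots.2 hcard2
  intro z hz
  have h1 := hsplit.eq_prod_roots
  rw [h1, map_mul, map_multiset_prod, mul_eq_zero] at hz
  rcases hz with hz | hz
  · exfalso
    rw [aeval_C] at hz
    have : P.leadingCoeff = 0 := by
      have h2 : ((P.leadingCoeff : ℝ) : ℂ) = 0 := hz
      exact_mod_cast h2
    linarith
  · rw [Multiset.prod_eq_zero_iff, Multiset.map_map, Multiset.mem_map] at hz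
    obtain ⟨a, _, ha⟩ := hz
    simp only [Function.comp, map_sub, aeval_X, aeval_C] at ha
    rw [sub_eq_zero] at ha
    rw [ha]
    exact Complex.ofReal_im a

theorem alt_step {P Q : ℝ[X]} {d : ℕ} (hP : Alt P d) (hQ : Q.natDegree = d + 1)
    (hQl : 0 < Q.leadingCoeff) : ∃ N : ℕ, Alt ((N + 1 : ℕ) • P + Q) (d + 1) := by
  obtain ⟨hdeg, hlc, t, ht, hs⟩ := hP
  -- a large N
  have hN : ∀ᶠ N : ℕ in Filter.atTop, ∀ i ∈ Finset.range (d + 1),
      0 < (N : ℝ) * ((-1) ^ i * P.eval (t i)) + (-1) ^ i * Q.eval (t i) := by
    rw [Filter.eventually_all_finset]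
    intro i hi
    have h1 := hs i (by rw [Finset.mem_range] at hi; omega)
    have h2 : Filter.Tendsto (fun N : ℕ => (N : ℝ) * ((-1) ^ i * P.eval (t i)) +
        (-1) ^ i * Q.eval (t i)) Filter.atTop Filter.atTop :=
      Filter.tendsto_atTop_add_const_right _ _
        (Filter.Tendsto.atTop_mul_const h1 tendsto_natCast_atTop_atTop)
    exact h2.eventually_gt_atTop 0
  obtain ⟨N, hN⟩ := hN.exists_forall_of_atTop
  refine ⟨N, ?_⟩
  set R : ℝ[X] := (N + 1 : ℕ) • P + Q with hR
  have hPd : ((N + 1 : ℕ) • P).natDegree < Q.natDegree := by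
    rw [hQ]
    refine lt_of_le_of_lt (natDegree_smul_le _ _) ?_
    omega
  have hRdeg : R.natDegree = d + 1 := by
    rw [hR, natDegree_add_eq_right_of_natDegree_lt hPd, hQ]
  have hRlc : R.leadingCoeff = Q.leadingCoeff := by
    rw [hR, leadingCoeff_add_of_degree_lt (degree_lt_degree hPd)]
  have hReval : ∀ x, R.eval x = ((N + 1 : ℕ) : ℝ) * P.eval x + Q.eval x := by
    intro x
    rw [hR, eval_add, eval_smul, nsmul_eq_mul]
  -- the new point
  obtain ⟨u, hu1, hu2⟩ : ∃ u : ℝ, u < t d ∧ 0 < (-1) ^ (d + 1) * R.eval u := by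
    set T : ℝ[X] := C ((-1) ^ (d + 1)) * R.comp (-X) with hT
    have hnd : (R.comp (-X)).natDegree = d + 1 := by
      rw [natDegree_comp, natDegree_neg, natDegree_X, mul_one, hRdeg]
    have hlc2 : (R.comp (-X)).leadingCoeff = (-1) ^ (d + 1) * Q.leadingCoeff := by
      rw [leadingCoeff_comp (by rw [natDegree_neg, natDegree_X]; norm_num), hRlc, hRdeg,
        leadingCoeff_neg, leadingCoeff_X]
      ring
    have hTl : T.leadingCoeff = Q.leadingCoeff := by
      rw [hT, leadingCoeff_mul, leadingCoeff_C, hlc2, ← mul_assoc, ← mul_pow]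
      norm_num
    have hTd : 0 < T.degree := by
      rw [hT, degree_C_mul (by
        rcases neg_one_pow_eq_or ℝ (d + 1) with h | h <;> rw [h] <;> norm_num)]
      rw [← natDegree_pos_iff_degree_pos, hnd]
      omega
    have hlim := tendsto_atTop_of_leadingCoeff_nonneg T hTd (by rw [hTl]; exact hQl.le)
    obtain ⟨x, hx1, hx2⟩ := ((hlim.eventually_gt_atTop 0).and
      (Filter.eventually_gt_atTop (-(t d)))).exists
    refine ⟨-x, by linarith, ?_⟩
    rw [hT] at hx1
    simpa using hx1
  refine ⟨hRdeg, by rw [hRlc]; exact hQl, fun i => if i ≤ d then t i else u, ?_, ?_⟩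
  · intro i hi
    beta_reduce
    rcases Nat.lt_or_ge i d with h | h
    · rw [if_pos (by omega), if_pos (by omega)]
      exact ht i h
    · have : i = d := by omega
      subst this
      rw [if_neg (by omega), if_pos le_rfl]
      exact hu1
  · intro i hi
    beta_reduce
    rcases Nat.lt_or_ge d i with h | h
    · have : i = d + 1 := by omega
      subst this
      rw [if_neg (by omega)]
      exact hu2
    · rw [if_pos h, hReval]
      have h1 := hN (N + 1) (by omega) i (Finset.mem_range.2 (by omega))
      calc 0 < ((N + 1 : ℕ) : ℝ) * ((-1) ^ i * P.eval (t i)) + (-1) ^ i * Q.eval (t i) := h1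
        _ = _ := by ring

/-- `P` is the connected set polynomial of a graph with at least one vertex -/
def IsConn (P : ℝ[X]) : Prop :=
  ∃ (V : Type) (_ : Fintype V) (_ : Nonempty V) (G : SimpleGraph V), connPoly G = P

theorem isConn_nsmul {P : ℝ[X]} (hP : IsConn P) (N : ℕ) : IsConn ((N + 1 : ℕ) • P) := by
  induction N with
  | zero => simpa using hP
  | succ N ih =>
    obtain ⟨V, _, hV, G, hG⟩ := ih
    obtain ⟨W, _, hW, H, hH⟩ := hP
    refine ⟨V ⊕ W, inferInstance, inferInstance, G.sum H, ?_⟩
    rw [connPoly_sum, hG, hH]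
    rw [← succ_nsmul]

theorem degree_complete (d : ℕ) : ((1 + X : ℝ[X]) ^ (d + 1) - 1).natDegree = d + 1 ∧
    ((1 + X : ℝ[X]) ^ (d + 1) - 1).leadingCoeff = 1 := by
  have hm : ((1 + X : ℝ[X])).Monic := by
    rw [add_comm]
    exact monic_X_add_C (1 : ℝ)
  have h1 : ((1 + X : ℝ[X]) ^ (d + 1)).natDegree = d + 1 := by
    rw [hm.natDegree_pow]
    have : (1 + X : ℝ[X]).natDegree = 1 := by
      rw [add_comm]
      exact natDegree_X_add_C (1 : ℝ)
    rw [this, mul_one]
  have h2 : (1 : ℝ[X]).natDegree < ((1 + X : ℝ[X]) ^ (d + 1)).natDegree := by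
    rw [h1, natDegree_one]
    omega
  constructor
  · rw [natDegree_sub_eq_left_of_natDegree_lt h2, h1]
  · rw [leadingCoeff_sub_of_degree_lt (degree_lt_degree h2)]
    exact (hm.pow _).leadingCoeff

theorem exists_alt (d : ℕ) : ∃ (V : Type) (_ : Fintype V) (_ : Nonempty V) (G : SimpleGraph V),
    ¬ G.Preconnected ∧ Alt (connPoly G) (d + 1) := by
  induction d with
  | zero =>
    refine ⟨Fin 1 ⊕ Fin 1, inferInstance, inferInstance, (⊤ : SimpleGraph (Fin 1)).sum ⊤,
      SimpleGraph.not_preconnected_sum, ?_⟩
    rw [connPoly_sum, connPoly_top, pow_one, add_sub_cancel_left]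
    have h2 : (X + X : ℝ[X]) = C 2 * X := by
      rw [← two_mul]
      rfl
    rw [h2]
    refine ⟨by rw [natDegree_C_mul (by norm_num), natDegree_X], by
      rw [leadingCoeff_mul, leadingCoeff_C, leadingCoeff_X]; norm_num,
      fun i => if i = 0 then 1 else -1, ?_, ?_⟩
    · intro i hi
      have : i = 0 := by omega
      subst this
      norm_num
    · intro i hi
      have : i = 0 ∨ i = 1 := by omega
      rcases this with rfl | rfl <;> simp
  | succ d ih =>
    obtain ⟨V, _, hV, G, _, hG⟩ := ih
    obtain ⟨h1, h2⟩ := degree_complete (d + 1)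
    obtain ⟨N, hN⟩ := alt_step hG h1 (by rw [h2]; norm_num)
    obtain ⟨W, _, hW, H, hH⟩ := isConn_nsmul ⟨V, inferInstance, hV, G, rfl⟩ N
    refine ⟨W ⊕ Fin (d + 1 + 1), inferInstance, inferInstance, H.sum ⊤,
      SimpleGraph.not_preconnected_sum, ?_⟩
    rw [connPoly_sum, connPoly_top, hH]
    exact hN

theorem nodeRel_realRooted {V : Type} [Fintype V] (G : SimpleGraph V)
    (h : RealRooted (connPoly G)) : RealRooted (nodeRel G) := by
  intro z hz
  by_cases h1 : z = 1
  · rw [h1]; rfl
  have h2 : (1 - z) ≠ 0 := fun h3 => h1 (by rw [sub_eq_zero] at h3; exact h3.symm)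
  have h3 : aeval z (nodeRel G) = (1 - z) ^ Fintype.card V * aeval (z / (1 - z)) (connPoly G) := by
    rw [nodeRel, connPoly, map_sum, map_sum, Finset.mul_sum]
    refine Finset.sum_congr rfl fun S _ => ?_
    simp only [map_mul, map_pow, map_sub, aeval_X, map_one]
    obtain ⟨r, hr⟩ := Nat.exists_eq_add_of_le (Finset.card_le_univ S)
    rw [hr, Nat.add_sub_cancel_left, div_pow, pow_add]
    field_simp
  rw [h3, mul_eq_zero] at hz
  rcases hz with hz | hz
  · exact absurd hz (pow_ne_zero _ h2)
  · have h4 := h _ hz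
    set w := z / (1 - z) with hw
    have h5 : w * (1 - z) = z := div_mul_cancel₀ _ h2
    have h6 : w = ((w.re : ℝ) : ℂ) := by
      apply Complex.ext
      · simp
      · simp [h4]
    rw [h6] at h5
    have h7 := congrArg Complex.re h5
    have h8 := congrArg Complex.im h5
    simp at h7 h8
    -- h8 : w.re * (- z.im) = z.im
    have h9 : z.im * (1 + w.re) = 0 := by linarith
    rcases mul_eq_zero.1 h9 with h10 | h10
    · exact h10
    · exfalso
      have h11 : w.re = -1 := by linarith
      rw [h11] at h7
      linarith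

/-- For every `d` there is a disconnected graph `G` such that `C(G; x)` has degree at least `d`
and both `C(G; x)` and `NRel(G; p)` have only real roots. -/
theorem result : ∀ d : ℕ, ∃ (V : Type) (_ : Fintype V) (G : SimpleGraph V),
    ¬ G.Preconnected ∧ d ≤ (connPoly G).natDegree ∧ RealRooted (connPoly G) ∧
      RealRooted (nodeRel G) := by
  intro d
  obtain ⟨V, _, _, G, h1, h2⟩ := exists_alt d
  exact ⟨V, inferInstance, G, h1, by rw [h2.1]; omega, h2.realRooted,
    nodeRel_realRooted G h2.realRooted⟩

end Pool.Agent.Results.MP_51a8c5_co.HighDegree
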